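import Pool.Agent.W459.BS.Upper
import Pool.Agent.W459.BS.Lower2

set_option autoImplicit false

/-!
# A Bernstein-Sato zero locus with a component that is not a rational affine subspace

On `X = ℂ^2` with coordinates `x = x 0`, `y = x 1` let
`F = (x, y, x^3 + y^4 + 2 x y^3 + c x^2 y^2)` with `c` an irrational complex number. For every open
`W ⊆ ℂ^2` containing the origin (in particular for every relatively compact one) the zero locus of
the Bernstein-Sato ideal `B_F ⊆ ℂ[s_0, s_1, s_2]` on `W` has an irreducible component which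
contains the point `(-4, 2c - 4, -c/2)` and lies on the line
`{s_1 = 2c - 4, 4 s_0 + 3 s_1 + 12 s_2 + 28 = 0}`. This line contains no rational point.
-/

open MvPolynomial

namespace Pool.Agent.Results.MP_63dd0b_ag.IrrationalComponent

open Pool.Agent.W459.BS

theorem result (c : ℂ) (hc : ∀ q : ℚ, c ≠ (q : ℂ)) (W : Set (Fin 2 → ℂ)) (_hW : IsOpen W)
    (h0 : (0 : Fin 2 → ℂ) ∈ W) :
    ∃ V : Set (Fin 3 → ℂ),
      IsComponent (zeroSet (bsIdeal (![fun x => x 0, fun x => x 1,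
        fun x => x 0 ^ 3 + x 1 ^ 4 + 2 * x 0 * x 1 ^ 3 + c * x 0 ^ 2 * x 1 ^ 2] :
          Fin 3 → (Fin 2 → ℂ) → ℂ) W : Set (MvPolynomial (Fin 3) ℂ))) V ∧
      (![-4, 2 * c - 4, -c / 2] : Fin 3 → ℂ) ∈ V ∧
      (∀ s ∈ V, s 1 = 2 * c - 4 ∧ 4 * s 0 + 3 * s 1 + 12 * s 2 + 28 = 0) ∧
      ¬ IsRationalAffine V := by
  change ∃ V : Set (Fin 3 → ℂ),
      IsComponent (zeroSet (bsIdeal (Fc c) W : Set (MvPolynomial (Fin 3) ℂ))) V ∧
      s1 c ∈ V ∧ (∀ s ∈ V, s 1 = 2 * c - 4 ∧ 4 * s 0 + 3 * s 1 + 12 * s 2 + 28 = 0) ∧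
      ¬ IsRationalAffine V
  have hmem : s1 c ∈ zeroSet (bsIdeal (Fc c) W : Set (MvPolynomial (Fin 3) ℂ)) :=
    fun b hb => eval_s1_eq_zero (hb 0 h0)
  obtain ⟨V, hV, hs⟩ := exists_component (bsIdeal (Fc c) W) (s1 c) hmem
  -- an element `q τ` of the ideal, with `q` not vanishing at `s1`, forces `τ = 0` on `V`
  have key : ∀ q τ : MvPolynomial (Fin 3) ℂ, eval (s1 c) q ≠ 0 →
      (∀ p, InD (Fc c) p (fun s _ => eval s (q * τ))) → ∀ s ∈ V, eval s τ = 0 := by
    intro q τ hq hqτ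
    have hirr := hV.1.2.2 (zeroSet {q}) (zeroSet {τ}) ⟨_, rfl⟩ ⟨_, rfl⟩ (by
      intro s hsV
      have h1 : eval s (q * τ) = 0 := hV.2.1 hsV (q * τ) (fun p _ => hqτ p)
      rw [map_mul] at h1
      rcases mul_eq_zero.1 h1 with h' | h'
      · left; intro b hb; rw [Set.mem_singleton_iff.1 hb]; exact h'
      · right; intro b hb; rw [Set.mem_singleton_iff.1 hb]; exact h')
    rcases hirr with h | h
    · exact absurd (h hs q rfl) hq
    · exact fun s hsV => h hsV τ rfl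
  obtain ⟨q₁, hq₁, hσ⟩ := exists_sigma hc
  obtain ⟨q₂, hq₂, hN⟩ := exists_N hc
  have hline : ∀ s ∈ V, s 1 = 2 * c - 4 ∧ 4 * s 0 + 3 * s 1 + 12 * s 2 + 28 = 0 := by
    intro s hsV
    have h1 := key _ _ hq₁ hσ s hsV
    have h2 := key _ _ hq₂ hN s hsV
    simp only [map_add, map_mul, eval_X, eval_C] at h1 h2
    exact ⟨by linear_combination h1, h2⟩
  refine ⟨V, hV, hs, hline, ?_⟩
  rintro ⟨a, E, hE⟩
  have ha : (fun i => (a i : ℂ)) ∈ V := by
    rw [hE]
    intro e _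
    simp
  have h1 := (hline _ ha).1
  apply hc ((a 1 + 4) / 2)
  push_cast
  linear_combination (-1 / 2) * h1

end Pool.Agent.Results.MP_63dd0b_ag.IrrationalComponent
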